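import Pool.Agent.BCS.Stmts

/-!
# Squad BCS, row IBT: integral of a derivative of a periodic function over the torus
-/

set_option autoImplicit false

noncomputable section

open scoped ContDiff Topology
open Set MeasureTheory

namespace Pool.Agent.BCS.H98

open Pool.Agent.SecondKind (pd)
open Pool.Agent.BCS

/-- **IBT** -/
theorem ibt : IbtStmt := by
  classical
  intro m F i hF hper
  obtain _ | k := m
  · exact i.elim0
  have hd : Differentiable ℝ F := hF.differentiable one_ne_zero
  have hc : Continuous fun x => fderiv ℝ F x (Pi.single i 1) :=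
    (hF.continuous_fderiv one_ne_zero).clm_apply continuous_const
  have hle : (0 : Fin (k + 1) → ℝ) ≤ 1 := by
    intro j
    simp
  have hs : ∀ x, (∑ j : Fin (k + 1), (if j = i then fderiv ℝ F x else 0) (Pi.single j 1)) =
      fderiv ℝ F x (Pi.single i 1) := by
    intro x
    rw [Finset.sum_eq_single i]
    · simp
    · intro j _ hj
      simp [hj]
    · simp
  have key := integral_divergence_of_hasFDerivAt_off_countable' (0 : Fin (k + 1) → ℝ) 1 hle
    (fun j x => if j = i then F x else 0) (fun j x => if j = i then fderiv ℝ F x else 0) ∅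
    countable_empty ?_ ?_ ?_
  · have h1 : tI (pd i F) = ∫ x in Icc (0 : Fin (k + 1) → ℝ) 1,
        ∑ j : Fin (k + 1), (if j = i then fderiv ℝ F x else 0) (Pi.single j 1) := by
      unfold tI
      refine setIntegral_congr_fun measurableSet_Icc fun x _ => ?_
      exact (hs x).symm
    rw [h1, key]
    refine Finset.sum_eq_zero fun j _ => ?_
    by_cases hj : j = i
    · subst hj
      simp only [if_true]
      rw [sub_eq_zero]
      refine setIntegral_congr_fun measurableSet_Icc fun x _ => ?_
      have h2 : Fin.insertNth (α := fun _ => ℝ) j ((1 : Fin (k + 1) → ℝ) j) x =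
          Fin.insertNth (α := fun _ => ℝ) j ((0 : Fin (k + 1) → ℝ) j) x + Pi.single j 1 := by
        funext l
        rcases Fin.eq_self_or_eq_succAbove j l with rfl | ⟨l', rfl⟩
        · simp
        · simp [Fin.succAbove_ne]
      show F _ = F _
      rw [h2, hper]
    · simp [hj]
  · intro j
    by_cases hj : j = i
    · simpa [hj] using hF.continuous.continuousOn
    · simpa [hj] using continuousOn_const
  · intro x _ j
    by_cases hj : j = i
    · simpa [hj] using (hd x).hasFDerivAt
    · simpa [hj] using hasFDerivAt_const (0 : ℝ) x
  · have h3 : (fun x => ∑ j : Fin (k + 1), (if j = i then fderiv ℝ F x else 0)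
        (Pi.single j (1 : ℝ))) = fun x => fderiv ℝ F x (Pi.single i 1) := funext hs
    show IntegrableOn (fun x => ∑ j : Fin (k + 1), (if j = i then fderiv ℝ F x else 0)
        (Pi.single j (1 : ℝ))) _ _
    rw [h3]
    exact hc.continuousOn.integrableOn_compact isCompact_Icc

end Pool.Agent.BCS.H98
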